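import Pool.Agent.Work.MP_baf0bc_nt.PD5
import Pool.Agent.Work.MP_baf0bc_nt.Defs

set_option autoImplicit false

open Filter

namespace Pool.Agent.Results.MP_baf0bc_nt.DistinctBlocks

open Pool.Agent.Work.MP_baf0bc_nt

/-- Digit words of unbounded integer orbits in a rational base `p / q`: among the blocks of
length `δ N` that start at the first `N` positions, at least `(log q / log p - o(1)) N` are
pairwise distinct, for every fixed `δ > 0`. -/
theorem result (p q : ℕ) (hq : 2 ≤ q) (hpq : q < p) (hc : Nat.Coprime p q) (x a : ℕ → ℤ)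
    (ha : (Set.range a).Finite) (hrec : ∀ k, (q : ℤ) * x (k + 1) = (p : ℤ) * x k + a k)
    (hx : (Set.range x).Infinite) (δ c : ℝ) (hδ : 0 < δ) (hcq : c < Real.log q / Real.log p) :
    ∀ᶠ N : ℕ in atTop, c * N ≤ (pcx a N ⌊δ * N⌋₊ : ℝ) :=
  pd_main hq hpq hc x a ha hrec hx δ c hδ hcq

/-- The map `U` of the problem file. -/
def satU (n : ℤ) : ℤ := if n % 2 = 0 then (3 * n + 2) / 2 else (3 * n + 1) / 2

/-- Sanity check: the saturated word (letter `2` if `U^[k] 0` is even, `1` if it is odd) is the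
instance `p = 3`, `q = 2`, `x k = U^[k] 0`. -/
theorem sat_word (δ c : ℝ) (hδ : 0 < δ) (hc : c < Real.log 2 / Real.log 3) :
    ∀ᶠ N : ℕ in atTop, c * N ≤
      (pcx (fun k : ℕ => if satU^[k] 0 % 2 = 0 then (2 : ℤ) else 1) N ⌊δ * N⌋₊ : ℝ) := by
  have hpos : ∀ k : ℕ, 0 ≤ satU^[k] 0 ∧ satU^[k] 0 < satU^[k + 1] 0 := by
    intro k
    induction k with
    | zero => simp [satU]
    | succ k ih =>
      refine ⟨by linarith [ih.1, ih.2], ?_⟩
      have h0 : 0 ≤ satU^[k + 1] 0 := by linarith [ih.1, ih.2]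
      rw [Function.iterate_succ_apply' satU (k + 1)]
      generalize satU^[k + 1] 0 = y at h0 ⊢
      unfold satU
      split_ifs <;> omega
  refine result 3 2 le_rfl (by norm_num) (by norm_num) (fun k => satU^[k] 0) _ ?_ ?_ ?_ δ c hδ
    (by exact_mod_cast hc)
  · refine (Set.toFinite ({1, 2} : Set ℤ)).subset ?_
    rintro _ ⟨k, rfl⟩
    dsimp only
    split_ifs <;> simp
  · intro k
    rw [Function.iterate_succ_apply']
    generalize satU^[k] 0 = y
    unfold satU
    split_ifs <;> push_cast <;> omega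
  · exact Set.infinite_range_of_injective
      (strictMono_nat_of_lt_succ fun k => (hpos k).2).injective

theorem pcx_le_cpx (a : ℕ → ℤ) (ha : (Set.range a).Finite) (N L : ℕ) : pcx a N L ≤ cpx a L := by
  refine Set.ncard_le_ncard (Set.image_subset_range _ _) ?_
  refine (Set.Finite.pi' (t := fun _ : Fin L => Set.range a) fun _ => ha).subset ?_
  rintro _ ⟨i, rfl⟩ j
  exact ⟨_, rfl⟩

theorem log_ratio_pos {p q : ℕ} (hq : 2 ≤ q) (hpq : q < p) : 0 < Real.log q / Real.log p := by
  have h1 : (1 : ℝ) < q := by exact_mod_cast hq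
  have h2 : (1 : ℝ) < p := by exact_mod_cast (by omega : 1 < p)
  exact div_pos (Real.log_pos h1) (Real.log_pos h2)

/-- Consequence: superlinear factor complexity. -/
theorem superlinear (p q : ℕ) (hq : 2 ≤ q) (hpq : q < p) (hc : Nat.Coprime p q) (x a : ℕ → ℤ)
    (ha : (Set.range a).Finite) (hrec : ∀ k, (q : ℤ) * x (k + 1) = (p : ℤ) * x k + a k)
    (hx : (Set.range x).Infinite) :
    Tendsto (fun n : ℕ => (cpx a n : ℝ) / n) atTop atTop := by
  have h0 := log_ratio_pos hq hpq
  set c : ℝ := Real.log q / Real.log p / 2 with hcdef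
  have hc0 : 0 < c := by positivity
  refine tendsto_atTop.2 fun b => ?_
  obtain ⟨K, hK⟩ := exists_nat_gt (max 0 (b / c))
  have hK0 : (0 : ℝ) < K := (le_max_left _ _).trans_lt hK
  have hKb : b ≤ c * K := by
    have := (div_lt_iff₀ hc0).1 ((le_max_right _ _).trans_lt hK)
    linarith
  have h1 := result p q hq hpq hc x a ha hrec hx (1 / K) c (by positivity) (by linarith)
  have h2 : Tendsto (fun n : ℕ => K * n) atTop atTop :=
    tendsto_id.const_mul_atTop' (by exact_mod_cast hK0)
  filter_upwards [h2.eventually h1, eventually_gt_atTop 0] with n b1 b2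
  have b3 : (0 : ℝ) < n := by exact_mod_cast b2
  have b4 : ⌊(1 / K : ℝ) * ((K * n : ℕ) : ℝ)⌋₊ = n := by
    rw [show (1 / K : ℝ) * ((K * n : ℕ) : ℝ) = n by push_cast; field_simp, Nat.floor_natCast]
  rw [b4] at b1
  have b5 : (pcx a (K * n) n : ℝ) ≤ cpx a n := by exact_mod_cast pcx_le_cpx a ha _ _
  rw [le_div_iff₀ b3]
  push_cast at b1
  nlinarith

/-- Blocks starting before `N`: those starting before `n`, those that meet a letter change
after `n`, and the constant ones. -/
theorem pcx_le_changes (a : ℕ → ℤ) (ha : (Set.range a).Finite) (n N L : ℕ) :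
    pcx a N L ≤ n + ((Finset.Ico n (N + L)).filter fun i => a i ≠ a (i + 1)).card * L +
      (Set.range a).ncard := by
  classical
  set T := (Finset.Ico n (N + L)).filter fun i => a i ≠ a (i + 1) with hT
  let f : ℕ → Fin L → ℤ := fun i j => a (i + j.val)
  let S1 : Finset (Fin L → ℤ) := (Finset.range n).image f
  let S2 : Finset (Fin L → ℤ) := (T ×ˢ Finset.range L).image fun s => f (s.1 - s.2)
  let S3 : Finset (Fin L → ℤ) := ha.toFinset.image fun v _ => v
  have hsub : f '' Set.Iio N ⊆ ((S1 ∪ S2 ∪ S3 : Finset (Fin L → ℤ)) : Set (Fin L → ℤ)) := by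
    rintro _ ⟨i, hi, rfl⟩
    have hi' : i < N := hi
    simp only [Finset.coe_union, Set.mem_union, Finset.mem_coe]
    by_cases h1 : i < n
    · exact Or.inl (Or.inl (Finset.mem_image.2 ⟨i, Finset.mem_range.2 h1, rfl⟩))
    by_cases h2 : ∃ j < L, a (i + j) ≠ a (i + j + 1)
    · obtain ⟨j, hj, h3⟩ := h2
      refine Or.inl (Or.inr (Finset.mem_image.2 ⟨(i + j, j), Finset.mem_product.2
        ⟨Finset.mem_filter.2 ⟨Finset.mem_Ico.2 ⟨by omega, by omega⟩, h3⟩,
          Finset.mem_range.2 hj⟩, ?_⟩))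
      simp
    · push Not at h2
      refine Or.inr (Finset.mem_image.2 ⟨a i, ha.mem_toFinset.2 ⟨i, rfl⟩, ?_⟩)
      have h3 : ∀ j ≤ L, a (i + j) = a i := by
        intro j
        induction j with
        | zero => simp
        | succ j ih =>
          intro hj
          rw [← ih (by omega), ← add_assoc, h2 j (by omega)]
      funext j
      exact (h3 j j.2.le).symm
  have h1 : pcx a N L ≤ (S1 ∪ S2 ∪ S3).card := by
    rw [← Set.ncard_coe_finset]
    exact Set.ncard_le_ncard hsub (Finset.finite_toSet _)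
  have h2 : S1.card ≤ n := Finset.card_image_le.trans (by simp)
  have h3 : S2.card ≤ T.card * L := Finset.card_image_le.trans (by simp)
  have h4 : S3.card ≤ (Set.range a).ncard :=
    Finset.card_image_le.trans (by rw [Set.ncard_eq_toFinset_card _ ha])
  have h5 := Finset.card_union_le (S1 ∪ S2) S3
  have h6 := Finset.card_union_le S1 S2
  omega

/-- Consequence: for every `D > log p / log q`, the number of letter changes at positions in
`[n, D n)` tends to infinity. -/
theorem changes (p q : ℕ) (hq : 2 ≤ q) (hpq : q < p) (hc : Nat.Coprime p q) (x a : ℕ → ℤ)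
    (ha : (Set.range a).Finite) (hrec : ∀ k, (q : ℤ) * x (k + 1) = (p : ℤ) * x k + a k)
    (hx : (Set.range x).Infinite) (D : ℝ) (hD : Real.log p / Real.log q < D) :
    Tendsto (fun n : ℕ => ((Finset.Ico n ⌊D * n⌋₊).filter fun i => a i ≠ a (i + 1)).card)
      atTop atTop := by
  have h0 := log_ratio_pos hq hpq
  set r : ℝ := Real.log q / Real.log p with hr
  have hr' : Real.log p / Real.log q = 1 / r := by rw [hr, one_div, inv_div]
  rw [hr'] at hD
  obtain ⟨D', hD1, hD2⟩ := exists_between hD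
  have hD0 : 0 < D' := (by positivity : (0 : ℝ) < 1 / r).trans hD1
  have hD3 : 1 / D' < r := by
    rw [div_lt_iff₀ hD0]
    have := (div_lt_iff₀ h0).1 hD1
    linarith
  obtain ⟨c, hc1, hc2⟩ := exists_between hD3
  have hc0 : 0 < c := (by positivity : (0 : ℝ) < 1 / D').trans hc1
  have hc3 : 1 < c * D' := (div_lt_iff₀ hD0).1 hc1
  refine tendsto_atTop.2 fun B => ?_
  set η : ℝ := c * D' - 1 with hη
  have hη0 : 0 < η := by linarith
  set δ : ℝ := min ((D - D') / D') (η / (2 * (B + 1) * D')) with hδ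
  have hδ0 : 0 < δ := lt_min (div_pos (by linarith) hD0) (by positivity)
  have hδ1 : δ * D' ≤ D - D' := (le_div_iff₀ hD0).1 (min_le_left _ _)
  have hδ2 : δ * (2 * (B + 1) * D') ≤ η := (le_div_iff₀ (by positivity)).1 (min_le_right _ _)
  have h1 := result p q hq hpq hc x a ha hrec hx δ c hδ0 hc2
  have h2 : Tendsto (fun n : ℕ => ⌊D' * n⌋₊) atTop atTop :=
    tendsto_nat_floor_atTop.comp (tendsto_natCast_atTop_atTop.const_mul_atTop hD0)
  have h3 : ∀ᶠ n : ℕ in atTop, 2 * (c + (Set.range a).ncard) / η < n :=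
    tendsto_natCast_atTop_atTop.eventually (eventually_gt_atTop _)
  filter_upwards [h2.eventually h1, h3] with n b1 b2
  by_contra hB
  push Not at hB
  set N := ⌊D' * n⌋₊ with hN
  set L := ⌊δ * N⌋₊ with hL
  have n0 : (0 : ℝ) ≤ n := Nat.cast_nonneg n
  have e1 : (N : ℝ) ≤ D' * n := Nat.floor_le (by positivity)
  have e2 : D' * n < N + 1 := Nat.lt_floor_add_one _
  have e3 : (L : ℝ) ≤ δ * N := Nat.floor_le (by positivity)
  have e4 : (L : ℝ) ≤ δ * D' * n := by nlinarith
  have e5 : N + L ≤ ⌊D * n⌋₊ := Nat.le_floor (by push_cast; nlinarith)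
  have e6 : ((Finset.Ico n (N + L)).filter fun i => a i ≠ a (i + 1)).card ≤ B :=
    (Finset.card_le_card (Finset.filter_subset_filter _ (Finset.Ico_subset_Ico_right e5))).trans
      hB.le
  have e7 : pcx a N L ≤ n + B * L + (Set.range a).ncard :=
    (pcx_le_changes a ha n N L).trans (by have := Nat.mul_le_mul_right L e6; omega)
  have e8 : (pcx a N L : ℝ) ≤ n + B * L + (Set.range a).ncard := by exact_mod_cast e7
  have e9 : (B : ℝ) * L ≤ η / 2 * n := by
    have B0 : (0 : ℝ) ≤ B := Nat.cast_nonneg B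
    have : (B : ℝ) * L ≤ (B + 1) * (δ * D' * n) := by
      have L0 : (0 : ℝ) ≤ L := Nat.cast_nonneg L
      nlinarith
    nlinarith
  have e10 := (div_lt_iff₀ hη0).1 b2
  nlinarith

/-- Consequence: for each letter `v`, the number of positions `i < n` with `a i ≠ v` is
`ω(log n)`; on two letters, each letter occurs `ω(log n)` times among the first `n`. -/
theorem letters (p q : ℕ) (hq : 2 ≤ q) (hpq : q < p) (hc : Nat.Coprime p q) (x a : ℕ → ℤ)
    (ha : (Set.range a).Finite) (hrec : ∀ k, (q : ℤ) * x (k + 1) = (p : ℤ) * x k + a k)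
    (hx : (Set.range x).Infinite) (v : ℤ) :
    Tendsto (fun n : ℕ => (((Finset.range n).filter fun i => a i ≠ v).card : ℝ) / Real.log n)
      atTop atTop := by
  obtain ⟨D, hD⟩ := exists_nat_gt (max 1 (Real.log p / Real.log q))
  have hD1 : 1 < D := by exact_mod_cast (le_max_left _ _).trans_lt hD
  have h1 := changes p q hq hpq hc x a ha hrec hx D ((le_max_right _ _).trans_lt hD)
  let g : ℕ → ℕ := fun n => ((Finset.range n).filter fun i => a i ≠ v).card
  have hmono : ∀ m n, m ≤ n → g m ≤ g n := fun m n h =>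
    Finset.card_le_card (Finset.filter_subset_filter _ (Finset.range_subset_range.2 h))
  have hlogE : 0 < Real.log ((D + 1 : ℕ) : ℝ) := Real.log_pos (by exact_mod_cast (by omega))
  refine tendsto_atTop.2 fun b => ?_
  obtain ⟨B, hB⟩ := exists_nat_gt (max 0 (3 * Real.log ((D + 1 : ℕ) : ℝ) * b))
  have hB1 := (le_max_right _ _).trans_lt hB
  obtain ⟨n0, hn0⟩ := eventually_atTop.1 ((h1.eventually (eventually_ge_atTop (2 * B))).and
    (eventually_ge_atTop 1))
  have hn1 : 1 ≤ n0 := (hn0 n0 le_rfl).2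
  have hstep : ∀ n, n0 ≤ n → g n + B ≤ g ((D + 1) * n) := by
    intro n hn
    have b1 := (hn0 n hn).1
    rw [← Nat.cast_mul, Nat.floor_natCast] at b1
    set W := (Finset.Ico n ((D + 1) * n)).filter fun i => a i ≠ v with hW
    have b2 : ((Finset.Ico n (D * n)).filter fun i => a i ≠ a (i + 1)) ⊆
        W ∪ W.image (· - 1) := by
      intro i hi
      obtain ⟨c1, c2⟩ := Finset.mem_filter.1 hi
      obtain ⟨c3, c4⟩ := Finset.mem_Ico.1 c1
      have c5 : (D + 1) * n = D * n + n := by ring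
      by_cases c6 : a i = v
      · refine Finset.mem_union_right _ (Finset.mem_image.2 ⟨i + 1, Finset.mem_filter.2
          ⟨Finset.mem_Ico.2 ⟨by omega, by omega⟩, fun c7 => c2 (c6.trans c7.symm)⟩, by simp⟩)
      · exact Finset.mem_union_left _ (Finset.mem_filter.2
          ⟨Finset.mem_Ico.2 ⟨c3, by omega⟩, c6⟩)
    have b3 := (Finset.card_le_card b2).trans (Finset.card_union_le _ _)
    have b4 : (W.image (· - 1)).card ≤ W.card := Finset.card_image_le
    have b5 : g ((D + 1) * n) = g n + W.card := by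
      have c1 : n ≤ (D + 1) * n := Nat.le_mul_of_pos_left _ (by omega)
      simp only [g, hW, Finset.range_eq_Ico]
      rw [← Finset.Ico_union_Ico_eq_Ico (Nat.zero_le n) c1, Finset.filter_union,
        Finset.card_union_of_disjoint
          (Finset.disjoint_filter_filter (Finset.Ico_disjoint_Ico_consecutive _ _ _))]
    omega
  have hiter : ∀ k : ℕ, k * B ≤ g ((D + 1) ^ k * n0) := by
    intro k
    induction k with
    | zero => simp
    | succ k ih =>
      have b1 := hstep ((D + 1) ^ k * n0) (Nat.le_mul_of_pos_left _ (by positivity))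
      rw [← mul_assoc, ← pow_succ'] at b1
      rw [add_mul, one_mul]
      omega
  filter_upwards [eventually_ge_atTop ((D + 1) ^ n0 * n0)] with n hn
  set k := Nat.log (D + 1) (n / n0) with hk
  have b0 : (D + 1) ^ n0 ≤ n / n0 := (Nat.le_div_iff_mul_le (by omega)).2 hn
  have b1 : n0 ≤ k := Nat.le_log_of_pow_le (by omega) b0
  have b2 : (D + 1) ^ k * n0 ≤ n := by
    refine (Nat.le_div_iff_mul_le (by omega)).1 (Nat.pow_log_le_self _ ?_)
    have : 0 < (D + 1) ^ n0 := by positivity
    omega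
  have b3 : n < (D + 1) ^ (k + 1) * n0 :=
    (Nat.div_lt_iff_lt_mul (by omega)).1 (Nat.lt_pow_succ_log_self (by omega) _)
  have b4 : n0 ≤ (D + 1) ^ k := b1.trans (Nat.lt_pow_self (by omega)).le
  have b5 : n ≤ (D + 1) ^ (3 * k) := by
    calc n ≤ (D + 1) ^ (k + 1) * (D + 1) ^ k := b3.le.trans (Nat.mul_le_mul_left _ b4)
      _ = (D + 1) ^ (2 * k + 1) := by ring
      _ ≤ _ := Nat.pow_le_pow_right (by omega) (by omega)
  have b6 : 1 < n := by
    have c1 : 1 < (D + 1) ^ n0 := Nat.one_lt_pow (by omega) (by omega)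
    have c2 : (D + 1) ^ n0 ≤ (D + 1) ^ n0 * n0 := Nat.le_mul_of_pos_right _ (by omega)
    omega
  have b7 : 0 < Real.log n := Real.log_pos (by exact_mod_cast b6)
  have b8 : Real.log n ≤ 3 * k * Real.log ((D + 1 : ℕ) : ℝ) := by
    have := Real.log_le_log (by exact_mod_cast (by omega : 0 < n))
      (show (n : ℝ) ≤ ((D + 1 : ℕ) : ℝ) ^ (3 * k) by exact_mod_cast b5)
    rw [Real.log_pow] at this
    push_cast at this ⊢
    exact this
  have b9 : (k : ℝ) * B ≤ g n := by exact_mod_cast (hiter k).trans (hmono _ _ b2)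
  have k0 : (0 : ℝ) ≤ k := Nat.cast_nonneg k
  change b ≤ (g n : ℝ) / Real.log n
  rw [le_div_iff₀ b7]
  rcases le_total b 0 with hb | hb
  · have : (0 : ℝ) ≤ g n := Nat.cast_nonneg _
    nlinarith
  · have c1 := mul_le_mul_of_nonneg_left b8 hb
    have c2 := mul_le_mul_of_nonneg_left hB1.le k0
    nlinarith

end Pool.Agent.Results.MP_baf0bc_nt.DistinctBlocks
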