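import Pool.Agent.Work.MP_baf0bc_nt.Ne.Win

/-! Parity words of the orbits of `x ↦ ⌈3 x / 2⌉` for the seeds in an interval of length `2 ^ L`:
the window of length `L` which starts at position `L` avoids every small set of words,
outside an exponentially small proportion of the seeds. -/

set_option autoImplicit false

open Finset Real Filter

namespace Pool.Agent.Results.MP_baf0bc_nt.NormalWindow

open Pool.Agent.Work.MP_baf0bc_nt.Ne

theorem blkS : Blk (log 2 / log 3) := fun _ n h hi _ hp => blockS h n hi hp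

theorem result (η : ℝ) (hη : 0 < η) :
    ∃ c : ℝ, 0 < c ∧ ∃ L0 : ℕ, ∀ L ≥ L0, ∀ a : ℕ, ∀ t ≤ L, ∀ V : Finset (Fin t → ℕ),
      (V.card : ℝ) * 2 ^ (η * L) ≤ 2 ^ t →
      (((Finset.Ico a (a + 2 ^ L)).filter fun n =>
        (fun i : Fin t => (fun x : ℕ => (3 * x + 1) / 2)^[L + i] n % 2) ∈ V).card : ℝ) ≤
      2 ^ L * Real.exp (-c * L) :=
  (win1 blkS hη).imp fun _ h => ⟨h.1, eventually_atTop.1 h.2⟩

/-- For all but an exponentially small proportion of the seeds in an interval of length `2 ^ L`,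
the block `u` of length `l` has frequency `2 ^ (-l)` up to `τ` in the window of length `t` after
position `L`, where `δ L ≤ t ≤ L`. -/
theorem freq {l : ℕ} (hl : 1 ≤ l) {u : ℕ → ℕ} (hu : ∀ j, u j < 2) {δ τ : ℝ} (hδ : 0 < δ)
    (hτ : 0 < τ) : ∃ c : ℝ, 0 < c ∧ ∀ᶠ L : ℕ in atTop, ∀ a : ℕ, ∀ t ≤ L, δ * L ≤ t →
      (#{n ∈ Ico a (a + 2 ^ L) | τ * t ≤
        |(#{i ∈ range (t + 1 - l) | ∀ j < l, T^[L + i + j] n % 2 = u j} : ℝ) - t / 2 ^ l|} : ℝ) ≤
      2 ^ L * exp (-c * L) := by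
  obtain ⟨x, x0, x1, x2⟩ : ∃ x : ℝ, 0 < x ∧ x ≤ 1 ∧ x ≤ τ / 2 :=
    ⟨min 1 (τ / 2), lt_min one_pos (by positivity), min_le_left _ _, min_le_right _ _⟩
  have l0 : (0 : ℝ) < l := Nat.cast_pos.2 hl
  obtain ⟨η, hη⟩ : ∃ η : ℝ, η = x * τ / (2 * l) * δ / 2 := ⟨_, rfl⟩
  have η0 : 0 < η := by rw [hη]; positivity
  obtain ⟨c, c0, hc⟩ := win1 blkS η0
  refine ⟨c, c0, ?_⟩
  filter_upwards [hc, tendsto_natCast_atTop_atTop.eventually_ge_atTop (l / δ),
    tendsto_natCast_atTop_atTop.eventually_ge_atTop (2 * l * exp 2 / η)] with L h L1 L2 a t ht t1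
  rw [div_le_iff₀ hδ] at L1
  rw [div_le_iff₀ η0] at L2
  have lt : l ≤ t := Nat.cast_le (α := ℝ).1 (by linarith)
  refine le_trans (Nat.cast_le.2 (card_le_card fun n hn => ?_)) (h a t ht _
    ((mul_le_mul_of_nonneg_right (words hl hu x0 x1 x2 lt) (by positivity)).trans ?_))
  · rw [mem_filter] at hn
    refine mem_filter.2 ⟨hn.1, mem_filter.2 ⟨Fintype.mem_piFinset.2 fun i =>
      mem_range.2 (Nat.mod_lt _ two_pos), hn.2.trans_eq ?_⟩⟩
    rw [card_filter]
    push_cast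
    congr 2
    refine sum_congr rfl fun i hi => if_congr (forall₂_congr fun j hj => ?_) rfl rfl
    rw [Pool.Agent.Work.MP_baf0bc_nt.Ne.ext, dif_pos (by have := mem_range.1 hi; omega), add_assoc]
  · have a1 : (2 : ℝ) ^ (η * L) ≤ exp (η * L) := by
      rw [← exp_one_rpow]
      exact rpow_le_rpow zero_le_two (by linarith [add_one_le_exp (1 : ℝ)]) (by positivity)
    have a2 : 2 * l * exp 2 ≤ exp (η * L) := by linarith [add_one_le_exp (η * L)]
    have a3 : η * L + η * L ≤ x * τ / (2 * l) * t := by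
      have := mul_le_mul_of_nonneg_left t1 (by positivity : 0 ≤ x * τ / (2 * l))
      rw [hη]
      linarith
    calc _ = 2 ^ t * (2 * l * exp 2 * 2 ^ (η * L) / exp (x * τ / (2 * l) * t)) := by
          rw [exp_sub]
          ring
      _ ≤ _ := by
          refine mul_le_of_le_one_right (by positivity) ((div_le_one (exp_pos _)).2 ?_)
          exact (mul_le_mul a2 a1 (by positivity) (exp_pos _).le).trans
            (by rw [← exp_add]; exact exp_le_exp.2 a3)

end Pool.Agent.Results.MP_baf0bc_nt.NormalWindow
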