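import Pool.Agent.Work.MP_baf0bc_nt.Zn.Cube

/-! Parity words of the orbits of `x ↦ ⌈3 x / 2⌉` for the seeds below `2 ^ L`: the window which
starts at position `L` has almost full min-entropy. -/

set_option autoImplicit false

open Finset Polynomial Real Filter

namespace Pool.Agent.Results.MP_baf0bc_nt.WindowEntropy

open Pool.Agent.Work.MP_baf0bc_nt.Zn

theorem result (r : ℕ) (hr : 1 ≤ r) (ε : ℝ) (hε : 0 < ε) : ∃ L0 : ℕ, ∀ L ≥ L0, ∀ t : ℕ,
    4 ^ (r * t) ≤ 3 ^ L → ∀ V : Finset (Fin t → ℕ),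
      (((Finset.range (2 ^ L)).filter fun n =>
        (fun i : Fin t => (fun x : ℕ => (3 * x + 1) / 2)^[L + i] n % 2) ∈ V).card : ℝ) ≤
      V.card * (2 ^ L / 2 ^ t) * (1 + 2 / 4 ^ r + ε) ^ ((L : ℝ) / (2 * r)) := by
  refine eventually_atTop.1 ((beyond hr hε).mono fun L h t ht V => ?_)
  let wd : ℕ → Fin t → ℕ := fun n i => T^[L + i] n % 2
  refine (h t (∑ v ∈ V, X ^ sg t (T^[L] (Function.invFun wd v))) _ ht fun x hx => ?_).trans_eq
    (by simp [eval_finset_sum])
  rw [mem_filter, mem_range] at hx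
  have e : sg t (T^[L] x) = sg t (T^[L] (Function.invFun wd (wd x))) := sg_congr fun i hi => by
    simpa only [wd, ← Function.iterate_add_apply, add_comm] using
      (congrFun (Function.invFun_eq (f := wd) ⟨x, rfl⟩) ⟨i, hi⟩).symm
  refine ⟨hx.1, fun k => ?_⟩
  rw [finset_sum_coeff, sum_eq_zero_iff] at k
  simpa [e] using k (wd x) hx.2

theorem markov (P : ℕ[X]) {W : ℝ} (hW : 0 < W) : ∃ K : ℕ[X],
    ((K.eval 1 : ℕ) : ℝ) ≤ (P.eval 1 : ℕ) / W ∧ ∀ s, W ≤ P.coeff s → K.coeff s ≠ 0 := by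
  refine ⟨∑ s ∈ P.support with W ≤ P.coeff s, X ^ s, ?_, fun s hs k => ?_⟩
  · rw [le_div_iff₀ hW, P.eval_eq_sum, sum_def]
    simp only [eval_finset_sum, eval_pow, eval_X, one_pow, mul_one, Nat.cast_sum, sum_mul,
      Nat.cast_one, one_mul]
    exact (sum_le_sum fun s hs => (mem_filter.1 hs).2).trans
      (sum_le_sum_of_subset_of_nonneg (filter_subset _ _) fun _ _ _ => Nat.cast_nonneg _)
  · rw [finset_sum_coeff, sum_eq_zero_iff] at k
    simpa using k s (mem_filter.2 ⟨mem_support_iff.2 (Nat.cast_pos.1 (hW.trans_le hs)).ne', hs⟩)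

/-- Blocks of length `l` after `j` free letters, with a larger weight on the value `s`. -/
noncomputable def BL (j l A s : ℕ) : ℕ → ℕ[X]
  | 0 => FC j
  | q + 1 => cat (j + l * q) l (BL j l A s q) (A • FC l + X ^ s)

theorem BL_eval (j l A s q : ℕ) : (BL j l A s q).eval 1 = 2 ^ j * (A * 2 ^ l + 1) ^ q := by
  induction q with
  | zero => simp [BL, FC_eval]
  | succ q ih => simp [BL, cat_eval, ih, FC_eval, pow_succ, mul_assoc]

theorem BL_coeff (j l A s q y : ℕ) : ∏ i ∈ range q, (A + if sg l (T^[j + l * i] y) = s then 1 else 0)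
    ≤ (BL j l A s q).coeff (sg (j + l * q) y) := by
  induction q with
  | zero => simpa [BL] using FC_coeff j y
  | succ q ih =>
    rw [prod_range_succ, mul_add_one, ← add_assoc]
    refine (Nat.mul_le_mul ih ?_).trans (cat_coeff _ _ _ _ _)
    rw [coeff_add, coeff_smul, coeff_X_pow]
    exact Nat.add_le_add_right (Nat.le_mul_of_pos_right _ (FC_coeff _ _)) _

/-- For all seeds below `2 ^ L` outside an exponentially small proportion, the block `u` of length
`l` has frequency at most `2 ^ (-l) + τ` in the window from `L` to `L + L / d`. -/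
theorem freq {l : ℕ} (hl : 1 ≤ l) (u : ℕ → ℕ) {τ : ℝ} (hτ : 0 < τ) :
    ∃ d : ℕ, 0 < d ∧ ∃ c C : ℝ, 0 < c ∧ ∀ᶠ L : ℕ in atTop,
      (#{n ∈ range (2 ^ L) | (1 / 2 ^ l + τ) * (L / d : ℕ) ≤
        (#{i ∈ range (L / d) | ∀ j < l, T^[L + i + j] n % 2 = u j} : ℝ)} : ℝ) ≤
      C * 2 ^ L * exp (-c * L) := by
  obtain ⟨A, hA⟩ := exists_nat_gt (2 * (1 + τ) / τ + 1)
  have A1 : (1 : ℝ) < A := lt_of_le_of_lt (le_add_of_nonneg_left (by positivity)) hA
  obtain ⟨x, hx⟩ : ∃ x : ℝ, x = 1 / A := ⟨_, rfl⟩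
  have x0 : 0 < x := by rw [hx]; positivity
  have xA : x * A = 1 := by rw [hx]; field_simp
  have x1 : x ≤ 1 := by nlinarith
  have x2 : 2 * (1 + τ) * x ≤ τ := by
    have := (div_le_iff₀ hτ).1 (by linarith : 2 * (1 + τ) / τ ≤ A)
    nlinarith
  have l0 : (0 : ℝ) < l := Nat.cast_pos.2 hl
  obtain ⟨γ, hγ⟩ : ∃ γ : ℝ, γ = τ * x / (4 * l) := ⟨_, rfl⟩
  have γ0 : 0 < γ := by rw [hγ]; positivity
  obtain ⟨r, r1, r0⟩ := (((tendsto_pow_atTop_atTop_of_one_lt (by norm_num : (1 : ℝ) < 4)).eventually_ge_atTop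
    (3 / γ)).and (eventually_ge_atTop 1)).exists
  have r2 : 3 / 4 ^ r ≤ γ := by rwa [div_le_comm₀ (by positivity) γ0]
  refine ⟨2 * r, by omega, γ / (2 * r), l * exp (1 + 2 * γ), by positivity, ?_⟩
  filter_upwards [beyond r0 (ε := 1 / 4 ^ r) (by positivity), (tendsto_pow_atTop_atTop_of_one_lt
    (by norm_num : (1 : ℝ) < 3 / 2)).eventually_ge_atTop (4 ^ (r * (2 * l)))] with L h hL
  have m1 := Nat.mul_div_le L (2 * r)
  have m2 : (L : ℝ) / (2 * r) ≤ (L / (2 * r) : ℕ) + 1 := by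
    rw [div_le_iff₀' (by positivity)]
    exact_mod_cast (Nat.lt_mul_div_succ L (by omega : 0 < 2 * r)).le
  generalize L / (2 * r) = t at *
  obtain ⟨N, hN⟩ : ∃ N, N = t / l + 1 := ⟨_, rfl⟩
  have N1 : l * N ≤ t + l := by rw [hN, mul_add_one]; exact Nat.add_le_add_right (Nat.mul_div_le _ _) _
  have N2 : (N : ℝ) ≤ t / l + 1 := by
    rw [hN]
    push_cast
    exact add_le_add_left Nat.cast_div_le 1
  obtain ⟨s, hs⟩ : ∃ s, ∀ y, (∀ j < l, T^[j] y % 2 = u j) → sg l y = s := by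
    by_cases k : ∃ y, ∀ j < l, T^[j] y % 2 = u j
    · obtain ⟨y, hy⟩ := k
      exact ⟨_, fun y' hy' => sg_congr (y := y) fun j hj => (hy' j hj).trans (hy j hj).symm⟩
    · exact ⟨0, fun y hy => absurd ⟨y, hy⟩ k⟩
  obtain ⟨p, hp⟩ : ∃ p : ℝ, p = 1 / 2 ^ l := ⟨_, rfl⟩
  have p0 : 0 < p := by rw [hp]; positivity
  have p1 : p ≤ 1 := by rw [hp, div_le_one (by positivity)]; exact one_le_pow₀ one_le_two
  rw [← hp]
  let oc : ℕ → ℕ → ℕ := fun j n => #{q ∈ range N | sg l (T^[j + l * q] (T^[L] n)) = s}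
  refine le_trans (Nat.cast_le.2 ((card_le_card (t := (range l).biUnion fun j =>
    {n ∈ range (2 ^ L) | (p + τ) * t / l ≤ oc j n}) fun n hn => ?_).trans card_biUnion_le)) ?_
  · rw [mem_filter] at hn
    have : ∑ _j ∈ range l, (p + τ) * t / l ≤ ∑ j ∈ range l, (oc j n : ℝ) := by
      rw [sum_const, card_range, nsmul_eq_mul, mul_div_cancel₀ _ l0.ne', ← Nat.cast_sum]
      refine hn.2.trans (Nat.cast_le.2 ?_)
      rw [← card_sigma]
      refine card_le_card_of_injOn (fun i => ⟨i % l, i / l⟩) (fun i hi => ?_) fun i _ i' _ e => ?_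
      · simp only [coe_filter, mem_range, Set.mem_ofPred_eq] at hi
        simp only [mem_coe, mem_sigma, mem_filter, mem_range, Nat.mod_add_div]
        refine ⟨Nat.mod_lt _ hl, hN ▸ Nat.lt_succ_of_le (Nat.div_le_div_right hi.1.le),
          hs _ fun j hj => ?_⟩
        rw [← hi.2 j hj, ← Function.iterate_add_apply, ← Function.iterate_add_apply,
          show j + i + L = L + i + j by omega]
      · obtain ⟨e1, e2⟩ := Sigma.mk.inj e
        rw [← Nat.mod_add_div i l, e1, eq_of_heq e2, Nat.mod_add_div]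
    obtain ⟨j, hj, k⟩ := exists_le_of_sum_le (nonempty_range_iff.2 (by omega)) this
    exact mem_biUnion.2 ⟨j, hj, mem_filter.2 ⟨hn.1, k⟩⟩
  rw [Nat.cast_sum]
  refine (sum_le_card_nsmul _ _ (exp (1 + 2 * γ) * 2 ^ L * exp (-(γ / (2 * r)) * L))
    fun j hj => ?_).trans_eq (by rw [card_range, nsmul_eq_mul]; ring)
  rw [mem_range] at hj
  obtain ⟨K, K1, K2⟩ := markov (BL j l A s N)
    (W := A ^ N * exp ((x - x ^ 2) * ((p + τ) * t / l))) (by positivity)
  refine (h (j + l * N) K _ ?_ fun n hn => ?_).trans ?_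
  · have : (4 : ℝ) ^ (r * (j + l * N)) ≤ 3 ^ L :=
      calc _ ≤ (4 : ℝ) ^ (r * (2 * l) + r * t) := pow_le_pow_right₀ (by norm_num) (by nlinarith)
        _ ≤ (3 / 2) ^ L * 2 ^ L := by
          rw [pow_add, show (4 : ℝ) ^ (r * t) = 2 ^ (2 * r * t) by rw [mul_assoc, pow_mul 2]; norm_num]
          gcongr
          norm_num
        _ = _ := by rw [← mul_pow]; norm_num
    exact_mod_cast this
  · rw [mem_filter, mem_range] at hn
    refine ⟨hn.1, K2 _ (le_trans ?_ (Nat.cast_le.2 (BL_coeff j l A s N _)))⟩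
    have e1 : exp (x - x ^ 2) ≤ 1 + x := by
      have := one_sub_inv_le_log_of_pos (x := 1 + x) (by linarith)
      rw [← le_log_iff_exp_le (by linarith)]
      refine le_trans ?_ this
      rw [le_sub_comm, inv_le_iff_one_le_mul₀ (by linarith)]
      nlinarith [pow_pos x0 3]
    calc _ ≤ (A : ℝ) ^ N * exp ((x - x ^ 2) * oc j n) := by gcongr; exacts [by nlinarith, hn.2]
      _ ≤ A ^ N * (1 + x) ^ oc j n := by rw [mul_comm (_ - _), exp_nat_mul]; gcongr
      _ = ∏ q ∈ range N, (A * if sg l (T^[j + l * q] (T^[L] n)) = s then 1 + x else 1) := by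
        rw [prod_mul_distrib, prod_ite, prod_const, prod_const, prod_const_one, mul_one, card_range]
      _ = _ := by
        rw [Nat.cast_prod]
        refine prod_congr rfl fun q _ => ?_
        split_ifs <;> push_cast <;> linarith
  · rw [BL_eval] at K1
    have b1 : ((A : ℝ) * 2 ^ l + 1) ^ N ≤ (A * 2 ^ l * exp (p * x)) ^ N := by
      gcongr
      have : A * 2 ^ l * (p * x) = 1 := by rw [hp, hx]; field_simp
      nlinarith [add_one_le_exp (p * x), (by positivity : (0 : ℝ) < A * 2 ^ l)]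
    have b2 : (1 + 2 / 4 ^ r + 1 / 4 ^ r : ℝ) ^ ((L : ℝ) / (2 * r)) ≤ exp (γ * (t + 1)) := by
      rw [exp_mul]
      refine (rpow_le_rpow (by positivity) ?_ (by positivity)).trans
        (rpow_le_rpow_of_exponent_le (one_le_exp γ0.le) m2)
      linarith [add_one_le_exp γ, (by ring : (2 / 4 ^ r + 1 / 4 ^ r : ℝ) = 3 / 4 ^ r)]
    push_cast at K1
    calc _ ≤ 2 ^ j * (A * 2 ^ l * exp (p * x)) ^ N / (A ^ N * exp ((x - x ^ 2) * ((p + τ) * t / l))) *
          (2 ^ L / 2 ^ (j + l * N)) * exp (γ * (t + 1)) := by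
          gcongr
          exact K1.trans (by gcongr)
      _ = 2 ^ L * exp (N * (p * x) - (x - x ^ 2) * ((p + τ) * t / l) + γ * (t + 1)) := by
          rw [exp_add, exp_sub, exp_nat_mul, pow_add, pow_mul, mul_pow, mul_pow]
          field_simp
      _ ≤ 2 ^ L * exp (1 + 2 * γ + -(γ / (2 * r)) * L) := by
          refine mul_le_mul_of_nonneg_left (exp_le_exp.2 ?_) (by positivity)
          have t0 : (0 : ℝ) ≤ t / l := by positivity
          have e : γ * t = τ * x / 4 * (t / l) := by rw [hγ]; field_simp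
          have c1 := mul_le_mul_of_nonneg_right N2 (mul_pos p0 x0).le
          have c2 := mul_le_mul_of_nonneg_left m2 γ0.le
          have c3 : x * ((p + τ) * x) ≤ x * (τ / 2) :=
            mul_le_mul_of_nonneg_left (by nlinarith) x0.le
          have c4 := mul_le_mul_of_nonneg_right c3 t0
          have c5 : p * x ≤ 1 := mul_le_one₀ p1 x0.le x1
          rw [mul_div_assoc, show -(γ / (2 * r)) * L = -(γ * (L / (2 * r))) by ring]
          linarith
      _ = _ := by rw [exp_add]; ring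

end Pool.Agent.Results.MP_baf0bc_nt.WindowEntropy
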