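import Pool.Agent.Work.MP_baf0bc_nt.Zh.Main

/-! The number of Z-numbers of Mahler up to `X` is `O(X ^ 0.4962)`. -/

set_option autoImplicit false

open Finset Real Filter

namespace Pool.Agent.Results.MP_baf0bc_nt.ZNumberBelowHalf

open Pool.Agent.Work.MP_baf0bc_nt.Ne Pool.Agent.Work.MP_baf0bc_nt.Zh

theorem two_T (x : ℕ) : 2 * T x = 3 * x + x % 2 := by
  unfold T
  omega

theorem orbit {ξ : ℝ} (h0 : 0 < ξ) (h : ∀ n : ℕ, Int.fract (ξ * (3 / 2) ^ n) < 1 / 2) (n : ℕ) :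
    ξ * (3 / 2) ^ n = T^[n] ⌊ξ⌋₊ + Int.fract (ξ * (3 / 2) ^ n) := by
  induction n with
  | zero => simp [natCast_floor_eq_intCast_floor h0.le]
  | succ n ih =>
    have h1 : (2 : ℝ) * T (T^[n] ⌊ξ⌋₊) = 3 * T^[n] ⌊ξ⌋₊ + (T^[n] ⌊ξ⌋₊ % 2 : ℕ) := by
      exact_mod_cast two_T _
    have h2 : ((T^[n] ⌊ξ⌋₊ % 2 : ℕ) : ℝ) ≤ 1 := Nat.cast_le_one.2 (by omega)
    have h3 : (0 : ℝ) ≤ (T^[n] ⌊ξ⌋₊ % 2 : ℕ) := Nat.cast_nonneg _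
    have h4 := Int.floor_add_fract (ξ * (3 / 2) ^ (n + 1))
    have h5 := Int.fract_nonneg (ξ * (3 / 2) ^ (n + 1))
    have h6 := Int.fract_nonneg (ξ * (3 / 2) ^ n)
    have h7 : ξ * (3 / 2) ^ (n + 1) = 3 / 2 * (ξ * (3 / 2) ^ n) := by ring
    rw [Function.iterate_succ_apply']
    have : ⌊ξ * (3 / 2) ^ (n + 1)⌋ = T (T^[n] ⌊ξ⌋₊) := by
      have a : ((⌊ξ * (3 / 2) ^ (n + 1)⌋ : ℤ) : ℝ) < (T (T^[n] ⌊ξ⌋₊) + 1 : ℤ) := by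
        push_cast
        linarith [h n]
      have b : ((T (T^[n] ⌊ξ⌋₊) : ℤ) : ℝ) < (⌊ξ * (3 / 2) ^ (n + 1)⌋ + 1 : ℤ) := by
        push_cast
        linarith [h (n + 1)]
      rw [Int.cast_lt] at a b
      omega
    rw [this] at h4
    exact_mod_cast h4.symm

theorem result : ∃ C : ℝ, ∀ X : ℝ, 1 ≤ X →
    {ξ : ℝ | 0 < ξ ∧ ξ ≤ X ∧ ∀ n : ℕ, Int.fract (ξ * (3 / 2) ^ n) < 1 / 2}.Finite ∧
      ({ξ : ℝ | 0 < ξ ∧ ξ ≤ X ∧ ∀ n : ℕ, Int.fract (ξ * (3 / 2) ^ n) < 1 / 2}.ncard : ℝ) ≤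
        C * X ^ (2481 / 5000 : ℝ) := by
  obtain ⟨l, c, l0, hs⟩ := seeds
  obtain ⟨w0, hw⟩ := eventually_atTop.1 hs
  refine ⟨exp (c + 2481 / 5000 * log 2 * (l * (w0 + 2 : ℕ))), fun X hX => ?_⟩
  obtain ⟨w, w1, w2⟩ := exists_nat_pow_near hX (one_lt_pow₀ (one_lt_two (α := ℝ)) l0.ne')
  set S := {ξ : ℝ | 0 < ξ ∧ ξ ≤ X ∧ ∀ n : ℕ, Int.fract (ξ * (3 / 2) ^ n) < 1 / 2}
  have inj : Set.InjOn (fun ξ : ℝ => ⌊ξ⌋₊) S := fun a ha b hb e => by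
    by_contra ne
    obtain ⟨n, hn⟩ := pow_unbounded_of_one_lt (1 / |a - b|) (by norm_num : (1 : ℝ) < 3 / 2)
    rw [div_lt_iff₀ (abs_pos.2 (sub_ne_zero.2 ne)), ← abs_of_pos (by positivity :
      (0 : ℝ) < (3 / 2) ^ n), ← abs_mul, lt_abs] at hn
    have h1 := orbit ha.1 ha.2.2 n
    have h2 := orbit hb.1 hb.2.2 n
    rw [show ⌊a⌋₊ = ⌊b⌋₊ from e] at h1
    rcases hn with hn | hn <;> linarith [ha.2.2 n, hb.2.2 n, Int.fract_nonneg (a * (3 / 2) ^ n),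
      Int.fract_nonneg (b * (3 / 2) ^ n)]
  have bd : ∀ ξ ∈ S, 2 * ⌊ξ⌋₊ < 2 ^ (l * (w0 + 2 + w)) := fun ξ hξ => by
    have h1 : ⌊ξ⌋₊ < 2 ^ (l * (w + 1)) := by
      rw [Nat.floor_lt hξ.1.le, pow_mul]
      push_cast
      exact hξ.2.1.trans_lt w2
    have h2 : 2 ^ (l * (w + 1) + 1) ≤ 2 ^ (l * (w0 + 2 + w)) :=
      Nat.pow_le_pow_right two_pos (by nlinarith)
    omega
  have fin : S.Finite := Set.Finite.of_finite_image ((Set.finite_Iic _).subset (by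
    rintro _ ⟨ξ, hξ, rfl⟩
    exact (Nat.le_mul_of_pos_left _ two_pos).trans (bd ξ hξ).le)) inj
  refine ⟨fin, ?_⟩
  rw [Set.ncard_eq_toFinset_card S fin, ← card_image_of_injOn (by simpa using inj)]
  refine (hw (w0 + 2 + w) (by omega) _ fun x hx => ?_).trans ?_
  · obtain ⟨ξ, hξ, rfl⟩ := mem_image.1 hx
    rw [Set.Finite.mem_toFinset] at hξ
    refine ⟨bd ξ hξ, fun i => 2 * Int.fract (ξ * (3 / 2) ^ i), fun i => ⟨?_, ?_, ?_⟩⟩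
    · linarith [Int.fract_nonneg (ξ * (3 / 2) ^ i)]
    · linarith [hξ.2.2 i]
    · have h1 := orbit hξ.1 hξ.2.2 i
      have h2 := orbit hξ.1 hξ.2.2 (i + 1)
      have h3 : (2 : ℝ) * T (T^[i] ⌊ξ⌋₊) = 3 * T^[i] ⌊ξ⌋₊ + (T^[i] ⌊ξ⌋₊ % 2 : ℕ) := by
        exact_mod_cast two_T _
      have h4 : ξ * (3 / 2) ^ (i + 1) = 3 / 2 * (ξ * (3 / 2) ^ i) := by ring
      rw [Function.iterate_succ_apply'] at h2
      linarith
  · have h1 := log_le_log (by positivity) w1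
    rw [log_pow, log_pow] at h1
    rw [rpow_def_of_pos (one_pos.trans_le hX), ← exp_add, exp_le_exp]
    push_cast
    linarith

end Pool.Agent.Results.MP_baf0bc_nt.ZNumberBelowHalf
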